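import Pool.Agent.Helper34.TR.Asm
import Pool.Agent.Helper54.TR.EC
import Pool.Agent.Helper38.TR.Blk
import Pool.Agent.Helper80.TRB.Full

/-!
Project TR, block TR-6: the Lie algebra `LH` consists of all the skew matrices that commute with the
endomorphisms of the Hodge structure.
-/

set_option linter.unusedSectionVars false

open Matrix

namespace MH

variable {n : Type*} [Fintype n] [DecidableEq n]
variable {m : ℤ} {Q : Matrix n n ℚ} {S : Finset ℤ} {P : ℤ → Matrix n n ℂ}

/-- a skew matrix on a block of rank one is zero -/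
private theorem rank_one_skew5 {Q' : Matrix n n ℂ} (hQs : Q'ᵀ = Q') (hQd : Q'.det ≠ 0) {e : Matrix n n ℂ}
    (hee : e * e = e) (hadj : eᵀ * Q' = Q' * e) (hr : e.rank = 1) {X : Matrix n n ℂ} (hX : e * X * e = X)
    (hs : Xᵀ * Q' + Q' * X = 0) : X = 0 := by
  obtain ⟨W, -, hW2⟩ := exists_orth hQs hQd hee hadj
  have hy : (Wᵀ * Q' * X * W)ᵀ = -(Wᵀ * Q' * X * W) := by
    rw [Matrix.transpose_mul, Matrix.transpose_mul, Matrix.transpose_mul, Matrix.transpose_transpose, hQs,
      ← Matrix.mul_assoc Xᵀ, eq_neg_of_add_eq_zero_left hs]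
    simp only [Matrix.mul_assoc, Matrix.neg_mul, Matrix.mul_neg]
  have hsub : Subsingleton (Fin e.rank) := by
    rw [hr]
    infer_instance
  have hy0 : Wᵀ * Q' * X * W = 0 := by
    ext i j
    have h1 := congrFun (congrFun hy j) i
    rw [Matrix.transpose_apply, Matrix.neg_apply, hsub.elim j i] at h1
    rw [hsub.elim j i, Matrix.zero_apply]
    linear_combination (1 / 2 : ℂ) * h1
  rw [← hX]
  calc e * X * e = W * (Wᵀ * Q') * X * (W * (Wᵀ * Q')) := by rw [hW2]
    _ = W * (Wᵀ * Q' * X * W) * (Wᵀ * Q') := by simp only [Matrix.mul_assoc]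
    _ = 0 := by rw [hy0, Matrix.mul_zero, Matrix.zero_mul]

/-- a dominated block has rank at least nine -/
private theorem nine_le5 (H : IsHS m Q S P) (hSA : SelfAdj Q P) {e : Matrix n n ℂ} (he : IsBlock P e)
    (hD : Dom m S (fun p => (e * P p).rank)) : 9 ≤ e.rank := by
  obtain ⟨r, hr⟩ : ∃ r : ℤ → ℕ, r = fun p => (e * P p).rank := ⟨_, rfl⟩
  rw [← hr] at hD
  have h2 := hD.two
  have hsq := hD.sq
  have hsum : ∑ p ∈ S, r p = e.rank := by
    rw [hr]
    exact IsBlock.rank_sum H he
  have hr0 : ∀ p, p ∉ S → r p = 0 := by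
    intro p hp
    rw [hr]
    simp only [H.supp p hp, Matrix.mul_zero, Matrix.rank_zero]
  have hsym : ∀ p, r (2 * m - p) = r p := by
    intro p
    rw [hr]
    exact IsBlock.rank_symm H hSA he p
  have hle : ∑ p ∈ S.filter (fun p => m < p), r p ≤ ∑ p ∈ S.filter (fun p => p < m), r p := by
    calc ∑ p ∈ S.filter (fun p => m < p), r p = ∑ p ∈ S.filter (fun p => m < p), r (2 * m - p) :=
          Finset.sum_congr rfl fun p _ => (hsym p).symm
      _ = ∑ q ∈ (S.filter (fun p => m < p)).image (fun p => 2 * m - p), r q := by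
          rw [Finset.sum_image]
          intro x _ y _ hxy
          simp only at hxy
          omega
      _ ≤ ∑ p ∈ S.filter (fun p => p < m), r p := by
          refine Finset.sum_le_sum_of_ne_zero fun q hq hq0 => ?_
          rw [Finset.mem_image] at hq
          obtain ⟨p, hp, rfl⟩ := hq
          rw [Finset.mem_filter] at hp ⊢
          refine ⟨?_, by omega⟩
          by_contra h
          exact hq0 (hr0 _ h)
  have hm : m ∈ S := by
    by_contra h
    have := hr0 m h
    omega
  have hsplit : ∑ p ∈ S, r p = ∑ p ∈ S.filter (fun p => m < p), r p + ∑ p ∈ S.filter (fun p => p < m), r p + r m := by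
    rw [← Finset.sum_filter_add_sum_filter_not S (fun p => m < p) r, add_assoc]
    congr 1
    rw [← Finset.sum_filter_add_sum_filter_not (S.filter (fun p => ¬ m < p)) (fun p => p < m) r]
    congr 1
    · rw [Finset.filter_filter]
      refine Finset.sum_congr (Finset.filter_congr fun p _ => ?_) fun _ _ => rfl
      constructor
      · exact fun h => h.2
      · exact fun h => ⟨by omega, h⟩
    · rw [Finset.filter_filter]
      have : S.filter (fun p => ¬ m < p ∧ ¬ p < m) = {m} := by
        ext p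
        rw [Finset.mem_filter, Finset.mem_singleton]
        constructor
        · rintro ⟨_, h1, h2⟩
          omega
        · rintro rfl
          exact ⟨hm, by omega, by omega⟩
      rw [this, Finset.sum_singleton]
  rw [hsplit] at hsum
  set s := ∑ p ∈ S.filter (fun p => m < p), r p
  have h4 : 4 ≤ s ^ 2 := by nlinarith
  omega

/-- a block has rank one, or it has a dominated conjugate -/
private theorem touched5 (H : IsHS m Q S P) (hdom : DomAll m S P) {e : Matrix n n ℂ} (he : IsBlock P e) :
    e.rank = 1 ∨ ∃ σ : ℂ ≃+* ℂ, Dom m S (fun p => (e.map σ * P p).rank) := by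
  by_cases h0 : ∀ σ : ℂ ≃+* ℂ, ∀ p, p ≠ m → e.map σ * P p = 0
  · exact Or.inl (IsBlock.rank_one H he h0)
  · push Not at h0
    obtain ⟨σ, p, hp, h1⟩ := h0
    rcases hdom _ (IsBlock.aut σ he) with h2 | h2
    · exact absurd (h2 p hp) h1
    · exact Or.inr ⟨σ, h2⟩

private theorem Q_det5 (H : IsHS m Q S P) : (toC Q).det ≠ 0 := by
  obtain ⟨_, _, Qi, -, -, h, -, -⟩ := H.exists_basis
  intro h0
  have h1 := congrArg Matrix.det h
  rw [Matrix.det_mul, h0, zero_mul, Matrix.det_one] at h1
  exact zero_ne_one h1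

private theorem map_map5 (σ : ℂ ≃+* ℂ) (X : Matrix n n ℂ) : (X.map σ).map σ.symm = X := by
  ext i j
  simp

theorem LH_full (H : IsHS m Q S P) (hSA : SelfAdj Q P) (hdom : DomAll m S P) {X : Matrix n n ℂ}
    (hX : Xᵀ * toC Q + toC Q * X = 0) (hXc : ∀ x ∈ EC P, X * x = x * X) : X ∈ LH Q S P := by
  obtain ⟨k, e, he, hef, hsum, -, -⟩ := exists_blocks H hSA
  have hQs : (toC Q)ᵀ = toC Q := H.Q_symm
  have hQd := Q_det5 H
  refine assemble hQs hQd e (fun i => (he i).idem) hef hsum (fun i => EC_adj hSA (he i).mem) ?_ (LH Q S P)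
    (fun X hX Y hY => LH_br hX hY) (fun X hX => hX.1) (fun X hX i => LH_EC H hX (he i).mem) ?_ ?_ hX
    (fun i => hXc _ (he i).mem)
  · intro i
    rcases touched5 H hdom (he i) with h | ⟨σ, h⟩
    · exact Or.inl h
    · refine Or.inr ?_
      rw [← rank_aut σ (he i).idem]
      exact nine_le5 H hSA (IsBlock.aut σ (he i)) h
  · intro i X hXe hXs
    rcases touched5 H hdom (he i) with h | ⟨σ, h⟩
    · exact ⟨0, (LH Q S P).zero_mem, by
        rw [rank_one_skew5 hQs hQd (he i).idem (EC_adj hSA (he i).mem) h hXe hXs, Matrix.zero_mul]⟩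
    · have h1 : (e i).map σ * X.map σ * (e i).map σ = X.map σ := by
        rw [← Matrix.map_mul, ← Matrix.map_mul, hXe]
      have h2 : (X.map σ)ᵀ * toC Q + toC Q * X.map σ = 0 := by
        have h3 := congrArg (fun Y : Matrix n n ℂ => Y.map σ) hXs
        rw [Matrix.map_add _ (map_add _), Matrix.map_mul, Matrix.map_mul, toC_aut, Matrix.map_zero _ (map_zero _)] at h3
        exact h3
      obtain ⟨Y, hY, hYe⟩ := block_full H hSA hdom (IsBlock.aut σ (he i)) h h1 h2
      refine ⟨Y.map σ.symm, LH_aut σ.symm hY, ?_⟩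
      have h3 := congrArg (fun Z : Matrix n n ℂ => Z.map σ.symm) hYe
      simp only [Matrix.map_mul] at h3
      rw [map_map5, map_map5] at h3
      exact h3
  · intro i j hij T hTe hTc
    obtain ⟨c, hc⟩ := (he i).min T (EC_of_LH H fun X hX => hTc X hX)
    have h1 : T * e i = T := by
      calc T * e i = e j * T * e i * e i := by rw [hTe]
        _ = T := by rw [Matrix.mul_assoc _ (e i) (e i), (he i).idem, hTe]
    rw [h1] at hc
    rw [← hTe, hc, Matrix.mul_smul, hef j i (Ne.symm hij), smul_zero, Matrix.zero_mul]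

end MH
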